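import Mathlib

/-!
# A reflective checker for the bilinear feasibility problem behind `θ₄(Q₄)`

Signed integers are represented by pairs of naturals (`Z`), because the kernel evaluates
`Nat` arithmetic on literals quickly.
-/

set_option autoImplicit false

namespace Pool.Agent.Helper402.Theta

/-- five-tuples -/
structure V5 (α : Type) where
  a : α
  b : α
  c : α
  d : α
  e : α

namespace V5
variable {α β γ : Type}

def get (v : V5 α) : Fin 5 → α
  | 0 => v.a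
  | 1 => v.b
  | 2 => v.c
  | 3 => v.d
  | 4 => v.e

def map (f : α → β) (v : V5 α) : V5 β := ⟨f v.a, f v.b, f v.c, f v.d, f v.e⟩

def zip (f : α → β → γ) (v : V5 α) (w : V5 β) : V5 γ :=
  ⟨f v.a w.a, f v.b w.b, f v.c w.c, f v.d w.d, f v.e w.e⟩

/-- transpose -/
def tr (m : V5 (V5 α)) : V5 (V5 α) :=
  ⟨m.map V5.a, m.map V5.b, m.map V5.c, m.map V5.d, m.map V5.e⟩

/-- apply `f` at position `i` -/
def upd (v : V5 α) (i : Nat) (f : α → α) : V5 α :=
  match i with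
  | 0 => ⟨f v.a, v.b, v.c, v.d, v.e⟩
  | 1 => ⟨v.a, f v.b, v.c, v.d, v.e⟩
  | 2 => ⟨v.a, v.b, f v.c, v.d, v.e⟩
  | 3 => ⟨v.a, v.b, v.c, f v.d, v.e⟩
  | _ => ⟨v.a, v.b, v.c, v.d, f v.e⟩

theorem get_map (f : α → β) (v : V5 α) (i : Fin 5) : (v.map f).get i = f (v.get i) := by
  fin_cases i <;> rfl

theorem get_zip (f : α → β → γ) (v : V5 α) (w : V5 β) (i : Fin 5) :
    (v.zip f w).get i = f (v.get i) (w.get i) := by
  fin_cases i <;> rfl

theorem get_tr (m : V5 (V5 α)) (i j : Fin 5) : (m.tr.get i).get j = (m.get j).get i := by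
  fin_cases i <;> fin_cases j <;> rfl

end V5

/-- signed integers as pairs -/
structure Z where
  p : Nat
  n : Nat

namespace Z

def val (z : Z) : ℝ := (z.p : ℝ) - (z.n : ℝ)

def add (x y : Z) : Z := ⟨Nat.add x.p y.p, Nat.add x.n y.n⟩

def mul (x y : Z) : Z :=
  ⟨Nat.add (Nat.mul x.p y.p) (Nat.mul x.n y.n), Nat.add (Nat.mul x.p y.n) (Nat.mul x.n y.p)⟩

def sum5 (v : V5 Z) : Z :=
  ⟨Nat.add (Nat.add (Nat.add (Nat.add v.a.p v.b.p) v.c.p) v.d.p) v.e.p,
   Nat.add (Nat.add (Nat.add (Nat.add v.a.n v.b.n) v.c.n) v.d.n) v.e.n⟩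

def dot (v w : V5 Z) : Z := sum5 (v.zip mul w)

theorem val_add (x y : Z) : (add x y).val = x.val + y.val := by
  simp only [val, add, Nat.add_eq, Nat.cast_add]; ring

theorem val_mul (x y : Z) : (mul x y).val = x.val * y.val := by
  simp only [val, mul, Nat.add_eq, Nat.mul_eq, Nat.cast_add, Nat.cast_mul]; ring

theorem val_sum5 (v : V5 Z) : (sum5 v).val = ∑ i, (v.get i).val := by
  simp only [val, sum5, Nat.add_eq, Nat.cast_add, Fin.sum_univ_five, V5.get]; ring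

theorem val_dot (v w : V5 Z) : (dot v w).val = ∑ i, (v.get i).val * (w.get i).val := by
  rw [dot, val_sum5]
  refine Finset.sum_congr rfl fun i _ => ?_
  rw [V5.get_zip, val_mul]

end Z

/-- natural sum -/
def nsum (v : V5 Nat) : Nat := Nat.add (Nat.add (Nat.add (Nat.add v.a v.b) v.c) v.d) v.e

theorem nsum_cast (v : V5 Nat) : ((nsum v : ℕ) : ℝ) = ∑ i, ((v.get i : ℕ) : ℝ) := by
  simp only [nsum, Nat.add_eq, Nat.cast_add, Fin.sum_univ_five, V5.get]

/-- McCormick record: a bound `y * yc + u * uc + c` -/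
structure MC where
  y : Z
  u : Z
  c : Nat

/-- McCormick bound for `Γ y u` on `[0,wy] × [0,wu]`, with split parameter `φ` -/
def mc (Γ : Z) (φ wy wu : Nat) : MC :=
  match Nat.ble Γ.n Γ.p with
  | true =>
    ⟨⟨Nat.mul (Nat.sub (Nat.sub Γ.p Γ.n) (Nat.div (Nat.mul (Nat.sub Γ.p Γ.n) φ) 4095)) wu, 0⟩,
     ⟨Nat.mul (Nat.sub (Nat.sub Γ.p Γ.n)
        (Nat.sub (Nat.sub Γ.p Γ.n) (Nat.div (Nat.mul (Nat.sub Γ.p Γ.n) φ) 4095))) wy, 0⟩, 0⟩
  | false =>
    ⟨⟨0, Nat.mul (Nat.sub (Nat.sub Γ.n Γ.p) (Nat.div (Nat.mul (Nat.sub Γ.n Γ.p) φ) 4095)) wu⟩,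
     ⟨0, Nat.mul (Nat.sub (Nat.sub Γ.n Γ.p) (Nat.div (Nat.mul (Nat.sub Γ.n Γ.p) φ) 4095)) wy⟩,
     Nat.mul (Nat.mul (Nat.sub (Nat.sub Γ.n Γ.p)
        (Nat.div (Nat.mul (Nat.sub Γ.n Γ.p) φ) 4095)) wy) wu⟩

theorem mc_sound (Γ : Z) (φ wy wu : Nat) (y u : ℝ) (hy0 : 0 ≤ y) (hy : y ≤ wy)
    (hu0 : 0 ≤ u) (hu : u ≤ wu) :
    Γ.val * (y * u) ≤ (mc Γ φ wy wu).y.val * y + (mc Γ φ wy wu).u.val * u
      + ((mc Γ φ wy wu).c : ℝ) := by
  have hyu : 0 ≤ y * u := mul_nonneg hy0 hu0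
  unfold mc
  by_cases h : Γ.n ≤ Γ.p
  · have hb : Nat.ble Γ.n Γ.p = true := Nat.ble_eq.mpr h
    rw [hb]
    simp only [Z.val, Nat.sub_eq, Nat.mul_eq, Nat.cast_zero]
    set g := Γ.p - Γ.n with hg
    set s := g - (g * φ).div 4095 with hs
    have hsg : s ≤ g := Nat.sub_le _ _
    have hsr : ((g - s : ℕ) : ℝ) = (g : ℝ) - s := by
      rw [Nat.cast_sub hsg]
    have hgr : (g : ℝ) = (Γ.p : ℝ) - Γ.n := by
      rw [hg, Nat.cast_sub h]
    push_cast
    rw [hsr, ← hgr]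
    have h1 : (s : ℝ) * (y * u) ≤ s * (wu * y) := by
      apply mul_le_mul_of_nonneg_left _ (Nat.cast_nonneg _)
      nlinarith
    have h2 : ((g : ℝ) - s) * (y * u) ≤ ((g : ℝ) - s) * (wy * u) := by
      apply mul_le_mul_of_nonneg_left
      · nlinarith
      · have : (s : ℝ) ≤ g := by exact_mod_cast hsg
        linarith
    nlinarith
  · have hb : Nat.ble Γ.n Γ.p = false := by
      rw [← Bool.not_eq_true, Nat.ble_eq]; exact h
    rw [hb]
    push Not at h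
    simp only [Z.val, Nat.sub_eq, Nat.mul_eq, Nat.cast_zero]
    set g := Γ.n - Γ.p with hg
    set r := g - (g * φ).div 4095 with hr
    have hrg : (r : ℝ) ≤ g := by exact_mod_cast Nat.sub_le _ _
    have hgr : (g : ℝ) = (Γ.n : ℝ) - Γ.p := by
      rw [hg, Nat.cast_sub h.le]
    have hr0 : (0 : ℝ) ≤ r := Nat.cast_nonneg _
    push_cast
    have h1 : (r : ℝ) * (y * u) ≤ g * (y * u) := mul_le_mul_of_nonneg_right hrg hyu
    have h2 : 0 ≤ (r : ℝ) * ((wy - y) * (wu - u)) :=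
      mul_nonneg hr0 (mul_nonneg (by linarith) (by linarith))
    nlinarith

/-- a box for the 25 + 25 variables: lower corner and widths -/
structure Box where
  yl : V5 (V5 Z)
  yw : V5 (V5 Nat)
  ul : V5 (V5 Z)
  uw : V5 (V5 Nat)

def InBox (B : Box) (y u : Fin 5 → Fin 5 → ℝ) : Prop :=
  (∀ a i, ((B.yl.get a).get i).val ≤ y a i ∧
      y a i ≤ ((B.yl.get a).get i).val + (((B.yw.get a).get i : ℕ) : ℝ)) ∧
  (∀ a i, ((B.ul.get a).get i).val ≤ u a i ∧
      u a i ≤ ((B.ul.get a).get i).val + (((B.uw.get a).get i : ℕ) : ℝ))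

/-- sign vector from a code: component `0` is `+1`, component `i` is `+1` iff bit `i-1` is set.
`sb x i` is the bit. -/
def sb (x : Nat) : V5 Nat :=
  ⟨1, Nat.mod x 2, Nat.mod (Nat.div x 2) 2, Nat.mod (Nat.div x 4) 2, Nat.mod (Nat.div x 8) 2⟩

/-- contribution of one entry `(x, θ)` to the linear coefficients (scaled by 1000) -/
def entL (x : Nat) (θ : V5 Nat) : V5 (V5 Z) :=
  θ.map fun t => (sb x).map fun s => ⟨Nat.mul (Nat.mul 1000 t) s, Nat.mul (Nat.mul 1000 t) (Nat.sub 1 s)⟩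

def mx (a b : Nat) : Nat := match Nat.ble a b with | true => b | false => a

theorem mx_left (a b : Nat) : a ≤ mx a b := by
  unfold mx
  by_cases h : a ≤ b
  · rw [Nat.ble_eq.mpr h]; exact h
  · rw [show Nat.ble a b = false by rw [← Bool.not_eq_true, Nat.ble_eq]; exact h]

theorem mx_right (a b : Nat) : b ≤ mx a b := by
  unfold mx
  by_cases h : a ≤ b
  · rw [Nat.ble_eq.mpr h]
  · rw [show Nat.ble a b = false by rw [← Bool.not_eq_true, Nat.ble_eq]; exact h]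
    exact (not_le.mp h).le

def mx5 (θ : V5 Nat) : Nat := mx θ.a (mx θ.b (mx θ.c (mx θ.d θ.e)))

theorem le_mx5 (θ : V5 Nat) (i : Fin 5) : θ.get i ≤ mx5 θ := by
  unfold mx5
  have h1 := mx_left θ.a (mx θ.b (mx θ.c (mx θ.d θ.e)))
  have h2 := mx_right θ.a (mx θ.b (mx θ.c (mx θ.d θ.e)))
  have h3 := mx_left θ.b (mx θ.c (mx θ.d θ.e))
  have h4 := mx_right θ.b (mx θ.c (mx θ.d θ.e))
  have h5 := mx_left θ.c (mx θ.d θ.e)
  have h6 := mx_right θ.c (mx θ.d θ.e)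
  have h7 := mx_left θ.d θ.e
  have h8 := mx_right θ.d θ.e
  fin_cases i <;> simp only [V5.get] <;> omega

/-- linear part of the certificate -/
structure Lin where
  L : V5 (V5 Z)
  m : Nat

def zero5 : V5 (V5 Z) :=
  let z : Z := ⟨0, 0⟩
  let r : V5 Z := ⟨z, z, z, z, z⟩
  ⟨r, r, r, r, r⟩

def addM (A B : V5 (V5 Z)) : V5 (V5 Z) := A.zip (fun r s => r.zip Z.add s) B

/-- decode and accumulate `k` entries from the stream `N`: each entry has a 4-bit code and five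
22-bit multipliers. -/
def entries : Nat → Nat → Lin
  | 0, _ => ⟨zero5, 0⟩
  | k+1, N =>
    let θ : V5 Nat := ⟨Nat.mod (Nat.div N 16) 4194304, Nat.mod (Nat.shiftRight N 26) 4194304,
      Nat.mod (Nat.shiftRight N 48) 4194304, Nat.mod (Nat.shiftRight N 70) 4194304,
      Nat.mod (Nat.shiftRight N 92) 4194304⟩
    let r := entries k (Nat.shiftRight N 114)
    ⟨addM (entL (Nat.mod N 16) θ) r.L, Nat.add (mx5 θ) r.m⟩

end Pool.Agent.Helper402.Theta
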