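import Pool.Agent.Helper402.ThetaCheck

set_option autoImplicit false

namespace Pool.Agent.Helper402.Theta

open Finset

theorem core_real (β α L : Fin 5 → Fin 5 → ℝ) (K : ℝ) (yl ul y' u' : Fin 5 → Fin 5 → ℝ)
    (T2y T2u T2c T1y T1u T1c : Fin 5 → Fin 5 → Fin 5 → ℝ)
    (h2 : ∀ a b i, (β a b + if a = b then α i i else 0) * (y' a i * u' b i) ≤
      T2y a b i * y' a i + T2u a b i * u' b i + T2c a b i)
    (h1 : ∀ a i k, (if i = k then 0 else α i k) * (y' a i * u' a k) ≤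
      T1y a i k * y' a i + T1u a i k * u' a k + T1c a i k)
    (hF : 0 ≤ (∑ a, ∑ i, (yl a i + y' a i) *
      ((∑ b, β a b * (ul b i + u' b i)) + (∑ k, α i k * (ul a k + u' a k)) + L a i)) + K) :
    0 ≤ (∑ a, ∑ i, yl a i * ((∑ b, β a b * ul b i) + (∑ k, α i k * ul a k) + L a i))
      + (∑ a, ∑ i, (((∑ b, β a b * ul b i) + (∑ k, α i k * ul a k) + L a i) +
          ((∑ b, T2y a b i) + ∑ k, T1y a i k)) * y' a i)
      + (∑ b, ∑ k, (((∑ a, β a b * yl a k) + (∑ i, α i k * yl b i)) +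
          ((∑ a, T2u a b k) + ∑ i, T1u b i k)) * u' b k)
      + ((∑ a, ∑ b, ∑ i, T2c a b i) + ∑ a, ∑ i, ∑ k, T1c a i k) + K := by
  have e1 : ∀ a i, (yl a i + y' a i) *
      ((∑ b, β a b * (ul b i + u' b i)) + (∑ k, α i k * (ul a k + u' a k)) + L a i) =
      yl a i * ((∑ b, β a b * ul b i) + (∑ k, α i k * ul a k) + L a i)
      + ((∑ b, β a b * ul b i) + (∑ k, α i k * ul a k) + L a i) * y' a i
      + (∑ b, β a b * yl a i * u' b i) + (∑ k, α i k * yl a i * u' a k)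
      + (∑ b, β a b * (y' a i * u' b i)) + (∑ k, α i k * (y' a i * u' a k)) := by
    intro a i
    simp only [mul_add, Finset.sum_add_distrib, add_mul, Finset.mul_sum]
    have s1 : ∑ b, yl a i * (β a b * u' b i) = ∑ b, β a b * yl a i * u' b i :=
      Finset.sum_congr rfl fun b _ => by ring
    have s2 : ∑ k, yl a i * (α i k * u' a k) = ∑ k, α i k * yl a i * u' a k :=
      Finset.sum_congr rfl fun b _ => by ring
    have s3 : ∑ b, y' a i * (β a b * u' b i) = ∑ b, β a b * (y' a i * u' b i) :=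
      Finset.sum_congr rfl fun b _ => by ring
    have s4 : ∑ k, y' a i * (α i k * u' a k) = ∑ k, α i k * (y' a i * u' a k) :=
      Finset.sum_congr rfl fun b _ => by ring
    rw [s1, s2, s3, s4]
    simp only [← Finset.mul_sum]
    ring
  have e2 : ∑ a, ∑ i, (∑ b, β a b * yl a i * u' b i) = ∑ b, ∑ k, (∑ a, β a b * yl a k) * u' b k := by
    simp only [Finset.sum_mul]
    calc ∑ a, ∑ i, ∑ b, β a b * yl a i * u' b i = ∑ a, ∑ b, ∑ i, β a b * yl a i * u' b i :=
          Finset.sum_congr rfl fun a _ => Finset.sum_comm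
      _ = ∑ b, ∑ a, ∑ i, β a b * yl a i * u' b i := Finset.sum_comm
      _ = _ := Finset.sum_congr rfl fun b _ => Finset.sum_comm
  have e3 : ∑ a, ∑ i, (∑ k, α i k * yl a i * u' a k) = ∑ b, ∑ k, (∑ i, α i k * yl b i) * u' b k := by
    simp only [Finset.sum_mul]
    exact Finset.sum_congr rfl fun b _ => Finset.sum_comm
  have e4 : (∑ a, ∑ i, ∑ b, β a b * (y' a i * u' b i)) + (∑ a, ∑ i, ∑ k, α i k * (y' a i * u' a k))
      = (∑ a, ∑ b, ∑ i, (β a b + if a = b then α i i else 0) * (y' a i * u' b i))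
        + ∑ a, ∑ i, ∑ k, (if i = k then 0 else α i k) * (y' a i * u' a k) := by
    have d1 : ∑ a, ∑ b, ∑ i, (β a b + if a = b then α i i else 0) * (y' a i * u' b i) =
        (∑ a, ∑ b, ∑ i, β a b * (y' a i * u' b i)) + ∑ a, ∑ i, α i i * (y' a i * u' a i) := by
      rw [← Finset.sum_add_distrib]
      refine Finset.sum_congr rfl fun a _ => ?_
      simp only [add_mul, Finset.sum_add_distrib]
      congr 1
      rw [Finset.sum_eq_single a]
      · simp
      · intro b _ hb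
        simp [Ne.symm hb]
      · simp
    have d2 : ∀ a i, ∑ k, α i k * (y' a i * u' a k) =
        α i i * (y' a i * u' a i) + ∑ k, (if i = k then 0 else α i k) * (y' a i * u' a k) := by
      intro a i
      have : ∀ k, α i k * (y' a i * u' a k) =
          (if i = k then α i i * (y' a i * u' a i) else 0) +
            (if i = k then 0 else α i k) * (y' a i * u' a k) := by
        intro k
        by_cases h : i = k
        · subst h; simp
        · simp [h]
      rw [Finset.sum_congr rfl fun k _ => this k, Finset.sum_add_distrib]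
      simp
    rw [d1]
    simp only [d2, Finset.sum_add_distrib]
    have d3 : ∑ a, ∑ i, ∑ b, β a b * (y' a i * u' b i) = ∑ a, ∑ b, ∑ i, β a b * (y' a i * u' b i) :=
      Finset.sum_congr rfl fun a _ => Finset.sum_comm
    rw [d3]; ring
  have e5 : (∑ a, ∑ b, ∑ i, (β a b + if a = b then α i i else 0) * (y' a i * u' b i)) ≤
      (∑ a, ∑ i, (∑ b, T2y a b i) * y' a i) + (∑ b, ∑ k, (∑ a, T2u a b k) * u' b k)
        + ∑ a, ∑ b, ∑ i, T2c a b i := by
    calc _ ≤ ∑ a, ∑ b, ∑ i, (T2y a b i * y' a i + T2u a b i * u' b i + T2c a b i) := by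
          refine Finset.sum_le_sum fun a _ => Finset.sum_le_sum fun b _ => Finset.sum_le_sum fun i _ => ?_
          exact h2 a b i
      _ = _ := by
          simp only [Finset.sum_add_distrib, Finset.sum_mul]
          congr 1
          congr 1
          · exact Finset.sum_congr rfl fun a _ => Finset.sum_comm
          · rw [Finset.sum_comm]
            exact Finset.sum_congr rfl fun b _ => Finset.sum_comm
  have e6 : (∑ a, ∑ i, ∑ k, (if i = k then 0 else α i k) * (y' a i * u' a k)) ≤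
      (∑ a, ∑ i, (∑ k, T1y a i k) * y' a i) + (∑ b, ∑ k, (∑ i, T1u b i k) * u' b k)
        + ∑ a, ∑ i, ∑ k, T1c a i k := by
    calc _ ≤ ∑ a, ∑ i, ∑ k, (T1y a i k * y' a i + T1u a i k * u' a k + T1c a i k) := by
          refine Finset.sum_le_sum fun a _ => Finset.sum_le_sum fun b _ => Finset.sum_le_sum fun i _ => ?_
          exact h1 a b i
      _ = _ := by
          simp only [Finset.sum_add_distrib, Finset.sum_mul]
          congr 1
          congr 1
          exact Finset.sum_congr rfl fun b _ => Finset.sum_comm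
  simp only [e1, Finset.sum_add_distrib] at hF
  rw [e2, e3] at hF
  simp only [add_mul, Finset.sum_add_distrib] at hF e5 e6 e4 ⊢
  linarith

/-! ### decoding of leaf certificates -/

/-- field of width `w` bits (modulus `M = 2^w`) at offset `o` -/
def fld (N M o : Nat) : Nat := Nat.mod (Nat.shiftRight N o) M

def dec5 (N M w o : Nat) : V5 Nat :=
  ⟨fld N M o, fld N M (Nat.add o w), fld N M (Nat.add o (Nat.mul 2 w)),
    fld N M (Nat.add o (Nat.mul 3 w)), fld N M (Nat.add o (Nat.mul 4 w))⟩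

def dec25 (N M w o : Nat) : V5 (V5 Nat) :=
  ⟨dec5 N M w o, dec5 N M w (Nat.add o (Nat.mul 5 w)), dec5 N M w (Nat.add o (Nat.mul 10 w)),
    dec5 N M w (Nat.add o (Nat.mul 15 w)), dec5 N M w (Nat.add o (Nat.mul 20 w))⟩

def dec125 (N M w o : Nat) : V5 (V5 (V5 Nat)) :=
  ⟨dec25 N M w o, dec25 N M w (Nat.add o (Nat.mul 25 w)), dec25 N M w (Nat.add o (Nat.mul 50 w)),
    dec25 N M w (Nat.add o (Nat.mul 75 w)), dec25 N M w (Nat.add o (Nat.mul 100 w))⟩

def offs (v : V5 (V5 Nat)) : V5 (V5 Z) := v.map fun r => r.map fun x => ⟨x, 2097152⟩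

def diag (m : V5 (V5 Z)) : V5 Z := ⟨m.a.a, m.b.b, m.c.c, m.d.d, m.e.e⟩

def rep (x : Z) : V5 Z := ⟨x, x, x, x, x⟩

/-- coefficients of the products `y a i * u b i`, indexed `a b i` -/
def G2 (β : V5 (V5 Z)) (dg : V5 Z) : V5 (V5 (V5 Z)) :=
  ⟨⟨dg.map (Z.add β.a.a), rep β.a.b, rep β.a.c, rep β.a.d, rep β.a.e⟩,
   ⟨rep β.b.a, dg.map (Z.add β.b.b), rep β.b.c, rep β.b.d, rep β.b.e⟩,
   ⟨rep β.c.a, rep β.c.b, dg.map (Z.add β.c.c), rep β.c.d, rep β.c.e⟩,
   ⟨rep β.d.a, rep β.d.b, rep β.d.c, dg.map (Z.add β.d.d), rep β.d.e⟩,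
   ⟨rep β.e.a, rep β.e.b, rep β.e.c, rep β.e.d, dg.map (Z.add β.e.e)⟩⟩

/-- `α` with the diagonal removed -/
def G1 (α : V5 (V5 Z)) : V5 (V5 Z) :=
  ⟨⟨⟨0, 0⟩, α.a.b, α.a.c, α.a.d, α.a.e⟩,
   ⟨α.b.a, ⟨0, 0⟩, α.b.c, α.b.d, α.b.e⟩,
   ⟨α.c.a, α.c.b, ⟨0, 0⟩, α.c.d, α.c.e⟩,
   ⟨α.d.a, α.d.b, α.d.c, ⟨0, 0⟩, α.d.e⟩,
   ⟨α.e.a, α.e.b, α.e.c, α.e.d, ⟨0, 0⟩⟩⟩

theorem G2_get (β : V5 (V5 Z)) (α : V5 (V5 Z)) (a b i : Fin 5) :
    ((((G2 β (diag α)).get a).get b).get i).val =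
      ((β.get a).get b).val + if a = b then ((α.get i).get i).val else 0 := by
  fin_cases a <;> fin_cases b <;> fin_cases i <;>
    simp [G2, V5.get, rep, diag, V5.map, Z.val_add]

theorem G1_get (α : V5 (V5 Z)) (i k : Fin 5) :
    (((G1 α).get i).get k).val = if i = k then 0 else ((α.get i).get k).val := by
  fin_cases i <;> fin_cases k <;> simp [G1, V5.get, Z.val]

/-- `T2 a b i` -/
def T2 (G : V5 (V5 (V5 Z))) (φ : V5 (V5 (V5 Nat))) (yw uw : V5 (V5 Nat)) : V5 (V5 (V5 MC)) :=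
  (V5.zip (fun (Ga : V5 (V5 Z) × V5 Nat) (φa : V5 (V5 Nat)) =>
    (V5.zip (fun (Gab : V5 Z × V5 Nat) (φab : V5 Nat) =>
      (V5.zip (fun (g : Z × Nat) (r : Nat × Nat) => mc g.1 r.1 g.2 r.2)
        (V5.zip Prod.mk Gab.1 Ga.2) (V5.zip Prod.mk φab Gab.2)))
      (V5.zip Prod.mk Ga.1 uw) φa)) (V5.zip Prod.mk G yw) φ)

theorem T2_get (G : V5 (V5 (V5 Z))) (φ : V5 (V5 (V5 Nat))) (yw uw : V5 (V5 Nat)) (a b i : Fin 5) :
    (((T2 G φ yw uw).get a).get b).get i =
      mc (((G.get a).get b).get i) (((φ.get a).get b).get i) ((yw.get a).get i)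
        ((uw.get b).get i) := by
  simp only [T2, V5.get_zip]

/-- `T1 a i k` -/
def T1 (G : V5 (V5 Z)) (φ : V5 (V5 (V5 Nat))) (yw uw : V5 (V5 Nat)) : V5 (V5 (V5 MC)) :=
  (V5.zip (fun (wa : V5 Nat × V5 Nat) (φa : V5 (V5 Nat)) =>
    (V5.zip (fun (Gi : V5 Z × Nat) (φai : V5 Nat) =>
      (V5.zip (fun (g : Z) (r : Nat × Nat) => mc g r.1 Gi.2 r.2)
        Gi.1 (V5.zip Prod.mk φai wa.2)))
      (V5.zip Prod.mk G wa.1) φa)) (V5.zip Prod.mk yw uw) φ)

theorem T1_get (G : V5 (V5 Z)) (φ : V5 (V5 (V5 Nat))) (yw uw : V5 (V5 Nat)) (a i k : Fin 5) :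
    (((T1 G φ yw uw).get a).get i).get k =
      mc ((G.get i).get k) (((φ.get a).get i).get k) ((yw.get a).get i)
        ((uw.get a).get k) := by
  simp only [T1, V5.get_zip]

def ordL (o r1 r2 r3 : Nat) : V5 (V5 Z) :=
  ⟨zero5.a, zero5.a, zero5.a, zero5.a,
    ⟨⟨0, 0⟩, ⟨Nat.mul (Nat.mul 1000 o) r1, 0⟩,
      ⟨Nat.mul (Nat.mul 1000 o) r2, Nat.mul (Nat.mul 1000 o) r1⟩,
      ⟨Nat.mul (Nat.mul 1000 o) r3, Nat.mul (Nat.mul 1000 o) r2⟩,
      ⟨0, Nat.mul (Nat.mul 1000 o) r3⟩⟩⟩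

def dotM (A B : V5 (V5 Z)) : V5 (V5 Z) := A.map fun r => B.map fun s => Z.dot r s

theorem dotM_get (A B : V5 (V5 Z)) (i j : Fin 5) :
    (((dotM A B).get i).get j).val = ∑ k, ((A.get i).get k).val * ((B.get j).get k).val := by
  rw [dotM, V5.get_map, V5.get_map, Z.val_dot]

/-- sums of the McCormick contributions to the `y` coefficients -/
def mY (t2 t1 : V5 (V5 (V5 MC))) : V5 (V5 Z) :=
  V5.zip (fun (p q : V5 (V5 MC)) =>
    V5.zip (fun (r s : V5 MC) => Z.add (Z.sum5 (r.map MC.y)) (Z.sum5 (s.map MC.y))) (V5.tr p) q)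
    t2 t1

theorem mY_get (t2 t1 : V5 (V5 (V5 MC))) (a i : Fin 5) :
    (((mY t2 t1).get a).get i).val =
      (∑ b, ((((t2.get a).get b).get i).y).val) + ∑ k, ((((t1.get a).get i).get k).y).val := by
  simp only [mY, V5.get_zip, Z.val_add, Z.val_sum5, V5.get_map, V5.get_tr]

def mU (t2 t1 : V5 (V5 (V5 MC))) : V5 (V5 Z) :=
  V5.zip (fun (p q : V5 (V5 MC)) =>
    V5.zip (fun (r s : V5 MC) => Z.add (Z.sum5 (r.map MC.u)) (Z.sum5 (s.map MC.u)))
      (V5.tr p) (V5.tr q))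
    (V5.tr t2) t1

theorem mU_get (t2 t1 : V5 (V5 (V5 MC))) (b k : Fin 5) :
    (((mU t2 t1).get b).get k).val =
      (∑ a, ((((t2.get a).get b).get k).u).val) + ∑ i, ((((t1.get b).get i).get k).u).val := by
  simp only [mU, V5.get_zip, Z.val_add, Z.val_sum5, V5.get_map, V5.get_tr]

def csum (t : V5 (V5 (V5 MC))) : Nat :=
  nsum (t.map fun p => nsum (p.map fun q => nsum (q.map MC.c)))

theorem csum_cast (t : V5 (V5 (V5 MC))) :
    ((csum t : ℕ) : ℝ) = ∑ a, ∑ b, ∑ i, (((((t.get a).get b).get i).c : ℕ) : ℝ) := by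
  simp only [csum, nsum_cast, V5.get_map]

/-- positive part times width, summed -/
def ppart (C : V5 (V5 Z)) (w : V5 (V5 Nat)) : Nat :=
  nsum (V5.zip (fun r s => nsum (V5.zip (fun (z : Z) (x : Nat) => Nat.mul (Nat.sub z.p z.n) x) r s))
    C w)

theorem ppart_sound (C : V5 (V5 Z)) (w : V5 (V5 Nat)) (y : Fin 5 → Fin 5 → ℝ)
    (h0 : ∀ a i, 0 ≤ y a i) (h1 : ∀ a i, y a i ≤ (((w.get a).get i : ℕ) : ℝ)) :
    ∑ a, ∑ i, ((C.get a).get i).val * y a i ≤ ((ppart C w : ℕ) : ℝ) := by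
  simp only [ppart, nsum_cast, V5.get_zip]
  refine Finset.sum_le_sum fun a _ => Finset.sum_le_sum fun i _ => ?_
  set z := (C.get a).get i
  simp only [Nat.mul_eq, Nat.sub_eq, Nat.cast_mul, Z.val]
  have hz : (z.p : ℝ) - z.n ≤ ((z.p - z.n : ℕ) : ℝ) := by
    have : z.p ≤ (z.p - z.n) + z.n := by omega
    have h : (z.p : ℝ) ≤ ((z.p - z.n : ℕ) : ℝ) + z.n := by exact_mod_cast this
    linarith
  calc ((z.p : ℝ) - z.n) * y a i ≤ ((z.p - z.n : ℕ) : ℝ) * y a i :=
        mul_le_mul_of_nonneg_right hz (h0 a i)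
    _ ≤ _ := mul_le_mul_of_nonneg_left (h1 a i) (Nat.cast_nonneg _)

def addM3 (A B C : V5 (V5 Z)) : V5 (V5 Z) := addM (addM A B) C

theorem addM_get (A B : V5 (V5 Z)) (a i : Fin 5) :
    (((addM A B).get a).get i).val = ((A.get a).get i).val + ((B.get a).get i).val := by
  simp only [addM, V5.get_zip, Z.val_add]

theorem addM3_get (A B C : V5 (V5 Z)) (a i : Fin 5) :
    (((addM3 A B C).get a).get i).val =
      ((A.get a).get i).val + ((B.get a).get i).val + ((C.get a).get i).val := by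
  simp only [addM3, addM_get]

/-- the final comparison -/
def finish (B : Box) (β α L : V5 (V5 Z)) (m : Nat) (t2 t1 : V5 (V5 (V5 MC))) : Bool :=
  let gY := addM3 (dotM β (V5.tr B.ul)) (dotM B.ul α) L
  let gU := addM (dotM (V5.tr β) (V5.tr B.yl)) (dotM B.yl (V5.tr α))
  let c0 := Z.sum5 (V5.zip Z.dot B.yl gY)
  Nat.ble
    (Nat.succ (Nat.add (Nat.add (Nat.add (Nat.add (Nat.add (Nat.add c0.p (csum t2)) (csum t1))
      (Nat.mul 623000 m))
      (Nat.mul 1000000 (Nat.add (Z.sum5 (diag β)).n (Z.sum5 (diag α)).n)))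
      (ppart (addM gY (mY t2 t1)) B.yw)) (ppart (addM gU (mU t2 t1)) B.uw)))
    (Nat.add c0.n (Nat.mul 1000000 (Nat.add (Z.sum5 (diag β)).p (Z.sum5 (diag α)).p)))

def leafCheck (o : Nat) (B : Box) (N : Nat) : Bool :=
  let β := offs (dec25 N 4194304 22 0)
  let α := offs (dec25 N 4194304 22 550)
  let li := entries (fld N 32 4166) (Nat.shiftRight N 4171)
  let L := addM li.L (ordL o (fld N 4194304 1100) (fld N 4194304 1122) (fld N 4194304 1144))
  finish B β α L li.m (T2 (G2 β (diag α)) (dec125 N 4096 12 1166) B.yw B.uw)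
    (T1 (G1 α) (dec125 N 4096 12 2666) B.yw B.uw)

/-! ### soundness -/

structure Feas (y u : Fin 5 → Fin 5 → ℝ) : Prop where
  yu : ∀ a b, ∑ i, y a i * u b i = if a = b then 1000000 else 0
  uy : ∀ i k, ∑ a, y a i * u a k = if i = k then 1000000 else 0
  neg : ∀ x : Fin 5 → ℝ, x 0 = 1 → (∀ i, x i = 1 ∨ x i = -1) →
    ∑ a, max 0 (-∑ i, y a i * x i) ≤ 623

def Ord (y : Fin 5 → Fin 5 → ℝ) : Prop := y 4 2 ≤ y 4 1 ∧ y 4 3 ≤ y 4 2 ∧ y 4 4 ≤ y 4 3

theorem sb_zero (x : Nat) : (sb x).get 0 = 1 := rfl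

theorem sb_cases (x : Nat) (i : Fin 5) : (sb x).get i = 0 ∨ (sb x).get i = 1 := by
  have h2 : ∀ n : Nat, n.mod 2 = 0 ∨ n.mod 2 = 1 := fun n => Nat.mod_two_eq_zero_or_one n
  fin_cases i
  · right; rfl
  all_goals exact h2 _

theorem entL_get (x : Nat) (θ : V5 Nat) (a i : Fin 5) :
    (((entL x θ).get a).get i).val =
      1000 * ((θ.get a : ℕ) : ℝ) * (2 * (((sb x).get i : ℕ) : ℝ) - 1) := by
  simp only [entL, V5.get_map, Z.val, Nat.mul_eq, Nat.cast_mul, Nat.sub_eq]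
  rcases sb_cases x i with h | h <;> rw [h] <;> norm_num

theorem ent_sound (y : Fin 5 → Fin 5 → ℝ)
    (neg : ∀ x : Fin 5 → ℝ, x 0 = 1 → (∀ i, x i = 1 ∨ x i = -1) →
      ∑ a, max 0 (-∑ i, y a i * x i) ≤ 623) (x : Nat) (θ : V5 Nat) :
    0 ≤ 623000 * ((mx5 θ : ℕ) : ℝ) + ∑ a, ∑ i, (((entL x θ).get a).get i).val * y a i := by
  set ε : Fin 5 → ℝ := fun i => 2 * (((sb x).get i : ℕ) : ℝ) - 1 with hε
  have h0 : ε 0 = 1 := by simp [hε, sb_zero]; norm_num
  have h1 : ∀ i, ε i = 1 ∨ ε i = -1 := by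
    intro i
    rcases sb_cases x i with h | h
    · right; simp [hε, h]
    · left; simp [hε, h]; norm_num
  have hn := neg ε h0 h1
  have key : ∀ a, -(((mx5 θ : ℕ) : ℝ) * max 0 (-∑ i, y a i * ε i)) ≤
      ((θ.get a : ℕ) : ℝ) * ∑ i, y a i * ε i := by
    intro a
    have hm : 0 ≤ max 0 (-∑ i, y a i * ε i) := le_max_left _ _
    have hl : -∑ i, y a i * ε i ≤ max 0 (-∑ i, y a i * ε i) := le_max_right _ _
    have hθ : ((θ.get a : ℕ) : ℝ) ≤ ((mx5 θ : ℕ) : ℝ) := by exact_mod_cast le_mx5 θ a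
    have hθ0 : (0 : ℝ) ≤ ((θ.get a : ℕ) : ℝ) := Nat.cast_nonneg _
    have h2 := mul_le_mul_of_nonneg_right hθ hm
    have h3 := mul_le_mul_of_nonneg_left hl hθ0
    linarith
  have hs : ∑ a, ∑ i, (((entL x θ).get a).get i).val * y a i =
      1000 * ∑ a, ((θ.get a : ℕ) : ℝ) * ∑ i, y a i * ε i := by
    rw [Finset.mul_sum]
    refine Finset.sum_congr rfl fun a _ => ?_
    rw [Finset.mul_sum, Finset.mul_sum]
    refine Finset.sum_congr rfl fun i _ => ?_
    rw [entL_get]; ring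
  rw [hs]
  have hsum : -∑ a, ((mx5 θ : ℕ) : ℝ) * max 0 (-∑ i, y a i * ε i) ≤
      ∑ a, ((θ.get a : ℕ) : ℝ) * ∑ i, y a i * ε i := by
    rw [← Finset.sum_neg_distrib]
    exact Finset.sum_le_sum fun a _ => key a
  rw [← Finset.mul_sum] at hsum
  have hμ : (0 : ℝ) ≤ ((mx5 θ : ℕ) : ℝ) := Nat.cast_nonneg _
  nlinarith [mul_le_mul_of_nonneg_left hn hμ]

theorem zero5_get (a i : Fin 5) : ((zero5.get a).get i).val = 0 := by
  fin_cases a <;> fin_cases i <;> simp [zero5, V5.get, Z.val]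

theorem entries_sound (y : Fin 5 → Fin 5 → ℝ)
    (neg : ∀ x : Fin 5 → ℝ, x 0 = 1 → (∀ i, x i = 1 ∨ x i = -1) →
      ∑ a, max 0 (-∑ i, y a i * x i) ≤ 623) (k : Nat) :
    ∀ N : Nat, 0 ≤ 623000 * (((entries k N).m : ℕ) : ℝ) +
      ∑ a, ∑ i, (((entries k N).L.get a).get i).val * y a i := by
  induction k with
  | zero => intro N; simp [entries, zero5_get]
  | succ k ih =>
    intro N
    have h1 := ih (Nat.shiftRight N 114)
    simp only [entries, addM_get, Nat.add_eq, Nat.cast_add]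
    have h2 := ent_sound y neg (Nat.mod N 16) ⟨Nat.mod (Nat.div N 16) 4194304,
      Nat.mod (Nat.shiftRight N 26) 4194304,
      Nat.mod (Nat.shiftRight N 48) 4194304, Nat.mod (Nat.shiftRight N 70) 4194304,
      Nat.mod (Nat.shiftRight N 92) 4194304⟩
    simp only [add_mul, Finset.sum_add_distrib]
    linarith

theorem ordL_sound (o r1 r2 r3 : Nat) (y : Fin 5 → Fin 5 → ℝ) (h : o = 0 ∨ Ord y) :
    0 ≤ ∑ a, ∑ i, (((ordL o r1 r2 r3).get a).get i).val * y a i := by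
  have e : ∑ a, ∑ i, (((ordL o r1 r2 r3).get a).get i).val * y a i =
      1000 * (o : ℝ) * ((r1 : ℝ) * (y 4 1 - y 4 2) + r2 * (y 4 2 - y 4 3) +
        r3 * (y 4 3 - y 4 4)) := by
    simp only [Fin.sum_univ_five]
    simp [ordL, zero5, V5.get, Z.val]
    ring
  rw [e]
  rcases h with h | h
  · simp [h]
  · obtain ⟨h1, h2, h3⟩ := h
    have a1 : 0 ≤ (r1 : ℝ) * (y 4 1 - y 4 2) := mul_nonneg (Nat.cast_nonneg _) (by linarith)
    have a2 : 0 ≤ (r2 : ℝ) * (y 4 2 - y 4 3) := mul_nonneg (Nat.cast_nonneg _) (by linarith)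
    have a3 : 0 ≤ (r3 : ℝ) * (y 4 3 - y 4 4) := mul_nonneg (Nat.cast_nonneg _) (by linarith)
    positivity

theorem finish_sound (B : Box) (β α L : V5 (V5 Z)) (m : Nat) (φ2 φ1 : V5 (V5 (V5 Nat)))
    (y u : Fin 5 → Fin 5 → ℝ) (hy : Feas y u) (hB : InBox B y u)
    (hL : 0 ≤ 623000 * (m : ℝ) + ∑ a, ∑ i, ((L.get a).get i).val * y a i)
    (h : finish B β α L m (T2 (G2 β (diag α)) φ2 B.yw B.uw) (T1 (G1 α) φ1 B.yw B.uw) = true) :
    False := by
  obtain ⟨hBy, hBu⟩ := hB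
  set yl : Fin 5 → Fin 5 → ℝ := fun a i => ((B.yl.get a).get i).val with hyl
  set ul : Fin 5 → Fin 5 → ℝ := fun a i => ((B.ul.get a).get i).val with hul
  set y' : Fin 5 → Fin 5 → ℝ := fun a i => y a i - yl a i with hy'
  set u' : Fin 5 → Fin 5 → ℝ := fun a i => u a i - ul a i with hu'
  set t2 := T2 (G2 β (diag α)) φ2 B.yw B.uw with ht2
  set t1 := T1 (G1 α) φ1 B.yw B.uw with ht1
  have y0 : ∀ a i, 0 ≤ y' a i := fun a i => by have := (hBy a i).1; simp only [hy', hyl]; linarith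
  have y1 : ∀ a i, y' a i ≤ (((B.yw.get a).get i : ℕ) : ℝ) := fun a i => by
    have := (hBy a i).2; simp only [hy', hyl]; linarith
  have u0 : ∀ a i, 0 ≤ u' a i := fun a i => by have := (hBu a i).1; simp only [hu', hul]; linarith
  have u1 : ∀ a i, u' a i ≤ (((B.uw.get a).get i : ℕ) : ℝ) := fun a i => by
    have := (hBu a i).2; simp only [hu', hul]; linarith
  set βr : Fin 5 → Fin 5 → ℝ := fun a b => ((β.get a).get b).val with hβr
  set αr : Fin 5 → Fin 5 → ℝ := fun a b => ((α.get a).get b).val with hαr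
  set Lr : Fin 5 → Fin 5 → ℝ := fun a b => ((L.get a).get b).val with hLr
  set K : ℝ := 623000 * (m : ℝ) - 1000000 * ((∑ a, βr a a) + ∑ i, αr i i) with hK
  have hF : 0 ≤ (∑ a, ∑ i, (yl a i + y' a i) *
      ((∑ b, βr a b * (ul b i + u' b i)) + (∑ k, αr i k * (ul a k + u' a k)) + Lr a i)) + K := by
    have ey : ∀ a i, yl a i + y' a i = y a i := fun a i => by simp only [hy']; ring
    have eu : ∀ a i, ul a i + u' a i = u a i := fun a i => by simp only [hu']; ring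
    simp only [ey, eu]
    have e1 : ∑ a, ∑ i, y a i * ((∑ b, βr a b * u b i) + (∑ k, αr i k * u a k) + Lr a i) =
        (∑ a, ∑ b, βr a b * ∑ i, y a i * u b i) + (∑ i, ∑ k, αr i k * ∑ a, y a i * u a k)
          + ∑ a, ∑ i, Lr a i * y a i := by
      have f1 : ∀ a i, y a i * ((∑ b, βr a b * u b i) + (∑ k, αr i k * u a k) + Lr a i) =
          (∑ b, βr a b * (y a i * u b i)) + (∑ k, αr i k * (y a i * u a k)) + Lr a i * y a i := by
        intro a i
        rw [mul_add, mul_add, Finset.mul_sum, Finset.mul_sum]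
        congr 1
        · congr 1 <;> exact Finset.sum_congr rfl fun b _ => by ring
        · ring
      simp only [f1, Finset.sum_add_distrib, Finset.mul_sum]
      congr 1
      congr 1
      · exact Finset.sum_congr rfl fun a _ => Finset.sum_comm
      · calc ∑ a, ∑ i, ∑ k, αr i k * (y a i * u a k) = ∑ i, ∑ a, ∑ k, αr i k * (y a i * u a k) :=
              Finset.sum_comm
          _ = _ := Finset.sum_congr rfl fun i _ => Finset.sum_comm
    rw [e1]
    simp only [hy.yu, hy.uy]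
    have e2 : ∑ a, ∑ b, βr a b * (if a = b then (1000000 : ℝ) else 0) = 1000000 * ∑ a, βr a a := by
      rw [Finset.mul_sum]
      refine Finset.sum_congr rfl fun a _ => ?_
      simp [mul_comm]
    have e3 : ∑ a, ∑ b, αr a b * (if a = b then (1000000 : ℝ) else 0) = 1000000 * ∑ a, αr a a := by
      rw [Finset.mul_sum]
      refine Finset.sum_congr rfl fun a _ => ?_
      simp [mul_comm]
    rw [e2, e3, hK]
    have := hL
    simp only [hLr]
    linarith
  have key := core_real βr αr Lr K yl ul y' u'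
    (fun a b i => ((((t2.get a).get b).get i).y).val)
    (fun a b i => ((((t2.get a).get b).get i).u).val)
    (fun a b i => (((((t2.get a).get b).get i).c : ℕ) : ℝ))
    (fun a i k => ((((t1.get a).get i).get k).y).val)
    (fun a i k => ((((t1.get a).get i).get k).u).val)
    (fun a i k => (((((t1.get a).get i).get k).c : ℕ) : ℝ))
    (fun a b i => by
      have := mc_sound ((((G2 β (diag α)).get a).get b).get i) (((φ2.get a).get b).get i)
        ((B.yw.get a).get i) ((B.uw.get b).get i) (y' a i) (u' b i) (y0 a i) (y1 a i)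
        (u0 b i) (u1 b i)
      rw [G2_get] at this
      simp only [ht2, T2_get]
      exact this)
    (fun a i k => by
      have := mc_sound (((G1 α).get i).get k) (((φ1.get a).get i).get k)
        ((B.yw.get a).get i) ((B.uw.get a).get k) (y' a i) (u' a k) (y0 a i) (y1 a i)
        (u0 a k) (u1 a k)
      rw [G1_get] at this
      simp only [ht1, T1_get]
      exact this) hF
  have hp1 := ppart_sound (addM (addM3 (dotM β (V5.tr B.ul)) (dotM B.ul α) L) (mY t2 t1)) B.yw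
    y' y0 y1
  have hp2 := ppart_sound (addM (addM (dotM (V5.tr β) (V5.tr B.yl)) (dotM B.yl (V5.tr α)))
    (mU t2 t1)) B.uw u' u0 u1
  simp only [addM_get, addM3_get, dotM_get, mY_get, mU_get, V5.get_tr] at hp1 hp2
  have hc0 : (Z.sum5 (V5.zip Z.dot B.yl (addM3 (dotM β (V5.tr B.ul)) (dotM B.ul α) L))).val =
      ∑ a, ∑ i, yl a i * ((∑ b, βr a b * ul b i) + (∑ k, ul a k * αr i k) + Lr a i) := by
    simp only [Z.val_sum5, V5.get_zip, Z.val_dot, addM3_get, dotM_get, V5.get_tr]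
    rfl
  have hdβ : (Z.sum5 (diag β)).val = ∑ a, βr a a := by
    rw [Z.val_sum5]
    refine Finset.sum_congr rfl fun a _ => ?_
    fin_cases a <;> rfl
  have hdα : (Z.sum5 (diag α)).val = ∑ a, αr a a := by
    rw [Z.val_sum5]
    refine Finset.sum_congr rfl fun a _ => ?_
    fin_cases a <;> rfl
  have hfin : Nat.succ (Nat.add (Nat.add (Nat.add (Nat.add (Nat.add (Nat.add
      (Z.sum5 (V5.zip Z.dot B.yl (addM3 (dotM β (V5.tr B.ul)) (dotM B.ul α) L))).p
      (csum t2)) (csum t1))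
      (Nat.mul 623000 m))
      (Nat.mul 1000000 (Nat.add (Z.sum5 (diag β)).n (Z.sum5 (diag α)).n)))
      (ppart (addM (addM3 (dotM β (V5.tr B.ul)) (dotM B.ul α) L) (mY t2 t1)) B.yw))
      (ppart (addM (addM (dotM (V5.tr β) (V5.tr B.yl)) (dotM B.yl (V5.tr α)))
        (mU t2 t1)) B.uw)) ≤
    (Nat.add (Z.sum5 (V5.zip Z.dot B.yl (addM3 (dotM β (V5.tr B.ul)) (dotM B.ul α) L))).n
      (Nat.mul 1000000 (Nat.add (Z.sum5 (diag β)).p (Z.sum5 (diag α)).p))) :=
    Nat.ble_eq.mp h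
  have hfin' := (Nat.cast_le (α := ℝ)).mpr hfin
  simp only [Nat.succ_eq_add_one, Nat.add_eq, Nat.mul_eq, Nat.cast_add, Nat.cast_mul,
    Nat.cast_one, csum_cast, Nat.cast_ofNat] at hfin'
  simp only [Z.val] at hc0 hdβ hdα
  have hsw : ∑ a, ∑ i, yl a i * ((∑ b, βr a b * ul b i) + (∑ k, ul a k * αr i k) + Lr a i) =
      ∑ a, ∑ i, yl a i * ((∑ b, βr a b * ul b i) + (∑ k, αr i k * ul a k) + Lr a i) := by
    simp only [mul_comm]
  rw [hsw] at hc0
  have q1 : ∑ a, ∑ i, (((∑ k, βr a k * ul k i) + (∑ k, ul a k * αr i k) + Lr a i) +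
      ((∑ b, ((((t2.get a).get b).get i).y).val) + ∑ k, ((((t1.get a).get i).get k).y).val)) * y' a i
      = ∑ a, ∑ i, (((∑ b, βr a b * ul b i) + (∑ k, αr i k * ul a k) + Lr a i) +
      ((∑ b, ((((t2.get a).get b).get i).y).val) + ∑ k, ((((t1.get a).get i).get k).y).val)) * y' a i := by
    refine Finset.sum_congr rfl fun a _ => Finset.sum_congr rfl fun i _ => ?_
    congr 3
    congr 1
    exact Finset.sum_congr rfl fun k _ => mul_comm _ _
  have q2 : ∑ b, ∑ k, (((∑ a, βr a b * yl a k) + (∑ i, yl b i * αr i k)) +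
      ((∑ a, ((((t2.get a).get b).get k).u).val) + ∑ i, ((((t1.get b).get i).get k).u).val)) * u' b k
      = ∑ b, ∑ k, (((∑ a, βr a b * yl a k) + (∑ i, αr i k * yl b i)) +
      ((∑ a, ((((t2.get a).get b).get k).u).val) + ∑ i, ((((t1.get b).get i).get k).u).val)) * u' b k := by
    refine Finset.sum_congr rfl fun a _ => Finset.sum_congr rfl fun i _ => ?_
    congr 3
    exact Finset.sum_congr rfl fun k _ => mul_comm _ _
  have hp1' := hp1
  have hp2' := hp2
  change ∑ a, ∑ i, (((∑ k, βr a k * ul k i) + (∑ k, ul a k * αr i k) + Lr a i) +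
      ((∑ b, ((((t2.get a).get b).get i).y).val) + ∑ k, ((((t1.get a).get i).get k).y).val)) * y' a i
      ≤ _ at hp1'
  change ∑ b, ∑ k, (((∑ a, βr a b * yl a k) + (∑ i, yl b i * αr i k)) +
      ((∑ a, ((((t2.get a).get b).get k).u).val) + ∑ i, ((((t1.get b).get i).get k).u).val)) * u' b k
      ≤ _ at hp2'
  rw [q1] at hp1'
  rw [q2] at hp2'
  linarith

theorem leafCheck_sound (o : Nat) (B : Box) (N : Nat) (y u : Fin 5 → Fin 5 → ℝ)
    (hy : Feas y u) (ho : o = 0 ∨ Ord y) (hB : InBox B y u) (h : leafCheck o B N = true) :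
    False := by
  refine finish_sound B _ _ _ _ _ _ y u hy hB ?_ h
  have h1 := entries_sound y hy.neg (fld N 32 4166) (Nat.shiftRight N 4171)
  have h2 := ordL_sound o (fld N 4194304 1100) (fld N 4194304 1122) (fld N 4194304 1144) y ho
  simp only [addM_get, add_mul, Finset.sum_add_distrib]
  linarith

end Pool.Agent.Helper402.Theta
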