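import Pool.Agent.Helper402.ThetaTree

set_option autoImplicit false

namespace Pool.Agent.Helper402.Theta

open Finset

/-- the system satisfied by (1000 times) the matrices of a simplex in `[-1,1]^4` whose projector
norm is at most `1 + 2 * 0.623` -/
structure Sys (y u : Fin 5 → Fin 5 → ℝ) : Prop where
  u0 : ∀ b, u b 0 = 1000
  ub : ∀ b k, |u b k| ≤ 1000
  feas : Feas y u

theorem Sys.transform {y u : Fin 5 → Fin 5 → ℝ} (h : Sys y u) (σ τ : Equiv.Perm (Fin 5))
    (ε : Fin 5 → ℝ) (hτ : τ 0 = 0) (hε0 : ε 0 = 1) (hε : ∀ i, ε i = 1 ∨ ε i = -1) :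
    Sys (fun a i => ε i * y (σ a) (τ i)) (fun b k => ε k * u (σ b) (τ k)) := by
  have hε2 : ∀ i, ε i * ε i = 1 := fun i => by rcases hε i with h | h <;> rw [h] <;> norm_num
  refine ⟨?_, ?_, ⟨?_, ?_, ?_⟩⟩
  · intro b
    simp [hε0, hτ, h.u0]
  · intro b k
    rw [abs_mul]
    have : |ε k| = 1 := by rcases hε k with h | h <;> rw [h] <;> norm_num
    rw [this, one_mul]
    exact h.ub _ _
  · intro a b
    have e1 : ∀ i, ε i * y (σ a) (τ i) * (ε i * u (σ b) (τ i)) = y (σ a) (τ i) * u (σ b) (τ i) := by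
      intro i
      calc ε i * y (σ a) (τ i) * (ε i * u (σ b) (τ i)) =
          (ε i * ε i) * (y (σ a) (τ i) * u (σ b) (τ i)) := by ring
        _ = _ := by rw [hε2, one_mul]
    rw [Finset.sum_congr rfl fun i _ => e1 i, Equiv.sum_comp τ (fun i => y (σ a) i * u (σ b) i),
      h.feas.yu]
    simp [σ.injective.eq_iff]
  · intro i k
    have e1 : ∀ a, ε i * y (σ a) (τ i) * (ε k * u (σ a) (τ k)) =
        (ε i * ε k) * (y (σ a) (τ i) * u (σ a) (τ k)) := fun a => by ring
    rw [Finset.sum_congr rfl fun a _ => e1 a, ← Finset.mul_sum,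
      Equiv.sum_comp σ (fun a => y a (τ i) * u a (τ k)), h.feas.uy]
    by_cases hik : i = k
    · subst hik; simp [hε2]
    · simp [hik]
  · intro x hx0 hx
    set x' : Fin 5 → ℝ := fun j => ε (τ.symm j) * x (τ.symm j) with hx'
    have h0 : x' 0 = 1 := by
      have : τ.symm 0 = 0 := by rw [Equiv.symm_apply_eq, hτ]
      simp [hx', this, hε0, hx0]
    have h1 : ∀ i, x' i = 1 ∨ x' i = -1 := by
      intro i
      rcases hε (τ.symm i) with h | h <;> rcases hx (τ.symm i) with h' | h' <;>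
        simp [hx', h, h']
    have hn := h.feas.neg x' h0 h1
    have e1 : ∀ a, ∑ i, ε i * y (σ a) (τ i) * x i = ∑ j, y (σ a) j * x' j := by
      intro a
      rw [← Equiv.sum_comp τ (fun j => y (σ a) j * x' j)]
      refine Finset.sum_congr rfl fun i _ => ?_
      simp only [hx', Equiv.symm_apply_apply]; ring
    rw [Finset.sum_congr rfl fun a _ => by rw [e1 a],
      Equiv.sum_comp σ (fun a => max 0 (-∑ j, y a j * x' j))]
    exact hn

/-- row `ℓ¹` norm without the constant term -/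
noncomputable def nrm (y : Fin 5 → Fin 5 → ℝ) (a : Fin 5) : ℝ := ∑ i : Fin 4, |y a i.succ|

theorem Sys.row {y u : Fin 5 → Fin 5 → ℝ} (h : Sys y u) (x : Fin 5 → ℝ) (a : Fin 5)
    (hx0 : x 0 = 1) (hx : ∀ i, x i = 1 ∨ x i = -1) : -∑ i, y a i * x i ≤ 623 := by
  have h1 := h.feas.neg x hx0 hx
  have h2 : max 0 (-∑ i, y a i * x i) ≤ ∑ a, max 0 (-∑ i, y a i * x i) :=
    Finset.single_le_sum (f := fun a => max 0 (-∑ i, y a i * x i))
      (fun _ _ => le_max_left _ _) (Finset.mem_univ a)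
  exact (le_max_right _ _).trans (h2.trans h1)

/-- sign vector opposite to a row -/
noncomputable def osg (y : Fin 5 → Fin 5 → ℝ) (a : Fin 5) : Fin 5 → ℝ :=
  Fin.cons 1 fun i : Fin 4 => if 0 ≤ y a i.succ then -1 else 1

theorem osg_zero (y : Fin 5 → Fin 5 → ℝ) (a : Fin 5) : osg y a 0 = 1 := rfl

theorem osg_cases (y : Fin 5 → Fin 5 → ℝ) (a : Fin 5) (i : Fin 5) :
    osg y a i = 1 ∨ osg y a i = -1 := by
  refine Fin.cases ?_ (fun j => ?_) i
  · left; rfl
  · simp only [osg, Fin.cons_succ]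
    by_cases h : 0 ≤ y a j.succ <;> simp [h]

theorem osg_sum (y : Fin 5 → Fin 5 → ℝ) (a : Fin 5) :
    ∑ i, y a i * osg y a i = y a 0 - nrm y a := by
  rw [Fin.sum_univ_succ]
  simp only [osg_zero, nrm]
  have : ∀ i : Fin 4, y a i.succ * osg y a i.succ = -|y a i.succ| := by
    intro i
    simp only [osg, Fin.cons_succ]
    by_cases h : 0 ≤ y a i.succ
    · rw [if_pos h, abs_of_nonneg h]; ring
    · rw [if_neg h, abs_of_neg (not_le.mp h)]; ring
  rw [Finset.sum_congr rfl fun i _ => this i, Finset.sum_neg_distrib]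
  ring

theorem Sys.nrm_le {y u : Fin 5 → Fin 5 → ℝ} (h : Sys y u) (a : Fin 5) :
    nrm y a - y a 0 ≤ 623 := by
  have := h.row (osg y a) a (osg_zero y a) (osg_cases y a)
  rw [osg_sum] at this
  linarith

theorem Sys.sum_zero {y u : Fin 5 → Fin 5 → ℝ} (h : Sys y u) : ∑ a, y a 0 = 1000 := by
  have := h.feas.uy 0 0
  simp only [h.u0, ← Finset.sum_mul, if_true] at this
  linarith

theorem Sys.sum_succ {y u : Fin 5 → Fin 5 → ℝ} (h : Sys y u) (i : Fin 4) :
    ∑ a, y a i.succ = 0 := by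
  have := h.feas.uy i.succ 0
  simp only [h.u0, ← Finset.sum_mul, if_neg (Fin.succ_ne_zero i)] at this
  linarith

theorem Sys.col {y u : Fin 5 → Fin 5 → ℝ} (h : Sys y u) (i : Fin 5) :
    1000 ≤ ∑ a, |y a i| := by
  have h1 := h.feas.uy i i
  rw [if_pos rfl] at h1
  have h2 : ∑ a, y a i * u a i ≤ ∑ a, |y a i| * 1000 := by
    refine Finset.sum_le_sum fun a _ => ?_
    calc y a i * u a i ≤ |y a i * u a i| := le_abs_self _
      _ = |y a i| * |u a i| := abs_mul _ _
      _ ≤ |y a i| * 1000 := mul_le_mul_of_nonneg_left (h.ub a i) (abs_nonneg _)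
  rw [← Finset.sum_mul] at h2
  linarith

theorem Sys.sum_nrm {y u : Fin 5 → Fin 5 → ℝ} (_h : Sys y u) :
    ∑ a, nrm y a = ∑ i : Fin 4, ∑ a, |y a i.succ| := by
  unfold nrm
  exact Finset.sum_comm

theorem Sys.diag {y u : Fin 5 → Fin 5 → ℝ} (h : Sys y u) (a : Fin 5) :
    1000 ≤ y a 0 + nrm y a := by
  have h1 := h.feas.yu a a
  rw [if_pos rfl, Fin.sum_univ_succ, h.u0] at h1
  have h2 : ∑ i : Fin 4, y a i.succ * u a i.succ ≤ ∑ i : Fin 4, |y a i.succ| * 1000 := by
    refine Finset.sum_le_sum fun i _ => ?_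
    calc y a i.succ * u a i.succ ≤ |y a i.succ * u a i.succ| := le_abs_self _
      _ = |y a i.succ| * |u a i.succ| := abs_mul _ _
      _ ≤ |y a i.succ| * 1000 := mul_le_mul_of_nonneg_left (h.ub a _) (abs_nonneg _)
  rw [← Finset.sum_mul] at h2
  unfold nrm
  linarith

theorem Sys.bounds {y u : Fin 5 → Fin 5 → ℝ} (h : Sys y u) (a : Fin 5) :
    (188 ≤ y a 0 ∧ y a 0 ≤ 247) ∧ ∀ i : Fin 4, |y a i.succ| ≤ 560 := by
  have n := h.nrm_le
  have d := h.diag
  have s0 := h.sum_zero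
  have sn := h.sum_nrm
  have c0 := h.col (Fin.succ 0)
  have c1 := h.col (Fin.succ 1)
  have c2 := h.col (Fin.succ 2)
  have c3 := h.col (Fin.succ 3)
  rw [Fin.sum_univ_four] at sn
  rw [Fin.sum_univ_five] at s0 sn
  have n0 := n 0
  have n1 := n 1
  have n2 := n 2
  have n3 := n 3
  have n4 := n 4
  have d0 := d 0
  have d1 := d 1
  have d2 := d 2
  have d3 := d 3
  have d4 := d 4
  refine ⟨⟨?_, ?_⟩, ?_⟩
  · have := n a; have := d a; linarith
  · fin_cases a <;> simp only [Fin.zero_eta, Fin.mk_one, Fin.reduceFinMk] <;> linarith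
  · intro i
    have hz := h.sum_succ i
    have hc : 2 * |y a i.succ| ≤ ∑ b, |y b i.succ| := by
      rw [← Finset.add_sum_erase _ _ (Finset.mem_univ a)] at hz ⊢
      have : |y a i.succ| ≤ ∑ b ∈ Finset.univ.erase a, |y b i.succ| := by
        have e : y a i.succ = -∑ b ∈ Finset.univ.erase a, y b i.succ := by linarith
        rw [e, abs_neg]
        exact Finset.abs_sum_le_sum_abs _ _
      linarith
    have hu : ∑ b, |y b i.succ| ≤ 1115 := by
      fin_cases i <;> simp only [Fin.zero_eta, Fin.mk_one, Fin.reduceFinMk] <;> linarith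
    linarith

/-- two rows cannot have the same sign pattern -/
theorem Sys.distinct {y u : Fin 5 → Fin 5 → ℝ} (h : Sys y u) {a b : Fin 5} (hab : a ≠ b)
    (hs : ∀ i : Fin 4, (0 ≤ y a i.succ ↔ 0 ≤ y b i.succ)) : False := by
  have e : osg y b = osg y a := by
    funext i
    refine Fin.cases rfl (fun j => ?_) i
    simp only [osg, Fin.cons_succ, hs j]
  have h1 := h.feas.neg (osg y a) (osg_zero y a) (osg_cases y a)
  have h2 : ∑ c ∈ ({a, b} : Finset (Fin 5)), max 0 (-∑ i, y c i * osg y a i) ≤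
      ∑ c, max 0 (-∑ i, y c i * osg y a i) :=
    Finset.sum_le_sum_of_subset_of_nonneg (Finset.subset_univ _) fun _ _ _ => le_max_left _ _
  rw [Finset.sum_pair hab] at h2
  have ea : ∑ i, y a i * osg y a i = y a 0 - nrm y a := osg_sum y a
  have eb : ∑ i, y b i * osg y a i = y b 0 - nrm y b := by rw [← e]; exact osg_sum y b
  rw [ea, eb] at h2
  have h3 := le_max_right (0 : ℝ) (-(y a 0 - nrm y a))
  have h4 := le_max_right (0 : ℝ) (-(y b 0 - nrm y b))
  have n := h.nrm_le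
  have s0 := h.sum_zero
  have sn := h.sum_nrm
  have c0 := h.col (Fin.succ 0)
  have c1 := h.col (Fin.succ 1)
  have c2 := h.col (Fin.succ 2)
  have c3 := h.col (Fin.succ 3)
  rw [Fin.sum_univ_four] at sn
  have h5 : ∑ c, (nrm y c - y c 0) ≤ (nrm y a - y a 0) + (nrm y b - y b 0) + 3 * 623 := by
    rw [← Finset.sum_sdiff (Finset.subset_univ ({a, b} : Finset (Fin 5))), Finset.sum_pair hab]
    have : ∑ c ∈ Finset.univ \ ({a, b} : Finset (Fin 5)), (nrm y c - y c 0) ≤
        ∑ c ∈ Finset.univ \ ({a, b} : Finset (Fin 5)), (623 : ℝ) :=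
      Finset.sum_le_sum fun c _ => n c
    rw [Finset.sum_const] at this
    have hcard : (Finset.univ \ ({a, b} : Finset (Fin 5))).card = 3 := by
      rw [Finset.card_sdiff_of_subset (Finset.subset_univ _), Finset.card_pair hab]; rfl
    rw [hcard] at this
    simp only [nsmul_eq_mul, Nat.cast_ofNat] at this
    linarith
  rw [Finset.sum_sub_distrib] at h5
  linarith

end Pool.Agent.Helper402.Theta
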