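import Pool.Agent.Helper402.ThetaLeaf

set_option autoImplicit false

namespace Pool.Agent.Helper402.Theta

inductive Tree where
  | leaf (N : Nat) : Tree
  | split (v t : Nat) (l r : Tree) : Tree

def ix : Nat → Fin 5
  | 0 => 0
  | 1 => 1
  | 2 => 2
  | 3 => 3
  | _ => 4

theorem V5.get_upd {α : Type} (v : V5 α) (a : Nat) (f : α → α) (j : Fin 5) :
    (v.upd a f).get j = if j = ix a then f (v.get j) else v.get j := by
  rcases a with _ | _ | _ | _ | a <;> fin_cases j <;> simp [V5.upd, V5.get, ix]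

def upd2 {α : Type} (m : V5 (V5 α)) (a i : Nat) (f : α → α) : V5 (V5 α) :=
  m.upd a fun r => r.upd i f

theorem upd2_get {α : Type} (m : V5 (V5 α)) (a i : Nat) (f : α → α) (j k : Fin 5) :
    ((upd2 m a i f).get j).get k =
      if j = ix a ∧ k = ix i then f ((m.get j).get k) else (m.get j).get k := by
  rw [upd2, V5.get_upd]
  by_cases h : j = ix a
  · simp [h, V5.get_upd]
  · simp [h]

def leftBox (B : Box) (v t : Nat) : Box :=
  match Nat.ble 25 v with
  | false => ⟨B.yl, upd2 B.yw (Nat.div v 5) (Nat.mod v 5) (fun _ => t), B.ul, B.uw⟩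
  | true => ⟨B.yl, B.yw, B.ul, upd2 B.uw (Nat.div (Nat.sub v 25) 4)
      (Nat.succ (Nat.mod (Nat.sub v 25) 4)) (fun _ => t)⟩

def rightBox (B : Box) (v t : Nat) : Box :=
  match Nat.ble 25 v with
  | false => ⟨upd2 B.yl (Nat.div v 5) (Nat.mod v 5) (fun z => ⟨Nat.add z.p t, z.n⟩),
      upd2 B.yw (Nat.div v 5) (Nat.mod v 5) (fun w => Nat.sub w t), B.ul, B.uw⟩
  | true => ⟨B.yl, B.yw,
      upd2 B.ul (Nat.div (Nat.sub v 25) 4) (Nat.succ (Nat.mod (Nat.sub v 25) 4))
        (fun z => ⟨Nat.add z.p t, z.n⟩),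
      upd2 B.uw (Nat.div (Nat.sub v 25) 4) (Nat.succ (Nat.mod (Nat.sub v 25) 4))
        (fun w => Nat.sub w t)⟩

theorem side_cover (L : V5 (V5 Z)) (W : V5 (V5 Nat)) (a i t : Nat) (y : Fin 5 → Fin 5 → ℝ)
    (h : ∀ a i, ((L.get a).get i).val ≤ y a i ∧
      y a i ≤ ((L.get a).get i).val + (((W.get a).get i : ℕ) : ℝ)) :
    (∀ j k, ((L.get j).get k).val ≤ y j k ∧
      y j k ≤ ((L.get j).get k).val + ((((upd2 W a i (fun _ => t)).get j).get k : ℕ) : ℝ)) ∨
    (∀ j k, (((upd2 L a i (fun z => ⟨Nat.add z.p t, z.n⟩)).get j).get k).val ≤ y j k ∧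
      y j k ≤ (((upd2 L a i (fun z => ⟨Nat.add z.p t, z.n⟩)).get j).get k).val +
        ((((upd2 W a i (fun w => Nat.sub w t)).get j).get k : ℕ) : ℝ)) := by
  by_cases hc : y (ix a) (ix i) ≤ ((L.get (ix a)).get (ix i)).val + (t : ℝ)
  · left
    intro j k
    rw [upd2_get]
    split_ifs with hjk
    · obtain ⟨rfl, rfl⟩ := hjk
      exact ⟨(h _ _).1, hc⟩
    · exact h j k
  · right
    push Not at hc
    intro j k
    rw [upd2_get, upd2_get]
    split_ifs with hjk
    · obtain ⟨rfl, rfl⟩ := hjk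
      have h2 := (h (ix a) (ix i)).2
      have hv : (⟨Nat.add ((L.get (ix a)).get (ix i)).p t, ((L.get (ix a)).get (ix i)).n⟩ : Z).val =
          ((L.get (ix a)).get (ix i)).val + t := by
        simp only [Z.val, Nat.add_eq, Nat.cast_add]; ring
      rw [hv]
      refine ⟨hc.le, ?_⟩
      have hw : (((W.get (ix a)).get (ix i) : ℕ) : ℝ) ≤
          t + ((Nat.sub ((W.get (ix a)).get (ix i)) t : ℕ) : ℝ) := by
        have : (W.get (ix a)).get (ix i) ≤ t + ((W.get (ix a)).get (ix i) - t) := by omega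
        exact_mod_cast this
      linarith
    · exact h j k

theorem split_cover (B : Box) (v t : Nat) (y u : Fin 5 → Fin 5 → ℝ) (h : InBox B y u) :
    InBox (leftBox B v t) y u ∨ InBox (rightBox B v t) y u := by
  unfold leftBox rightBox
  cases Nat.ble 25 v with
  | false =>
    rcases side_cover B.yl B.yw (Nat.div v 5) (Nat.mod v 5) t y h.1 with h1 | h1
    · left; exact ⟨h1, h.2⟩
    · right; exact ⟨h1, h.2⟩
  | true =>
    rcases side_cover B.ul B.uw (Nat.div (Nat.sub v 25) 4)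
      (Nat.succ (Nat.mod (Nat.sub v 25) 4)) t u h.2 with h1 | h1
    · left; exact ⟨h.1, h1⟩
    · right; exact ⟨h.1, h1⟩

def check (o : Nat) : Tree → Box → Bool
  | .leaf N, B => leafCheck o B N
  | .split v t l r, B =>
    match check o l (leftBox B v t) with
    | true => check o r (rightBox B v t)
    | false => false

theorem check_sound (o : Nat) (T : Tree) (y u : Fin 5 → Fin 5 → ℝ)
    (hy : Feas y u) (ho : o = 0 ∨ Ord y) :
    ∀ B : Box, InBox B y u → check o T B = true → False := by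
  induction T with
  | leaf N => intro B hB h; exact leafCheck_sound o B N y u hy ho hB h
  | split v t l r ihl ihr =>
    intro B hB h
    simp only [check] at h
    rcases split_cover B v t y u hB with h1 | h1
    · refine ihl _ h1 ?_
      cases hc : check o l (leftBox B v t) with
      | true => rfl
      | false => rw [hc] at h; exact absurd h (by simp)
    · refine ihr _ h1 ?_
      cases hc : check o l (leftBox B v t) with
      | true => rw [hc] at h; exact h
      | false => rw [hc] at h; exact absurd h (by simp)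

/-- The root box of a sign pattern: `s a i = 1` means `0 ≤ y a i ≤ 560`, otherwise
`-560 ≤ y a i ≤ 0`; the pattern is given by five codes. -/
def yrow (x : Nat) : V5 Z :=
  ⟨⟨188, 0⟩, ⟨0, Nat.mul 560 (Nat.sub 1 (Nat.mod x 2))⟩,
    ⟨0, Nat.mul 560 (Nat.sub 1 (Nat.mod (Nat.div x 2) 2))⟩,
    ⟨0, Nat.mul 560 (Nat.sub 1 (Nat.mod (Nat.div x 4) 2))⟩,
    ⟨0, Nat.mul 560 (Nat.sub 1 (Nat.mod (Nat.div x 8) 2))⟩⟩

def rootBox (p : V5 Nat) : Box :=
  ⟨p.map yrow,
   let r : V5 Nat := ⟨59, 560, 560, 560, 560⟩; ⟨r, r, r, r, r⟩,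
   let r : V5 Z := ⟨⟨1000, 0⟩, ⟨0, 1000⟩, ⟨0, 1000⟩, ⟨0, 1000⟩, ⟨0, 1000⟩⟩; ⟨r, r, r, r, r⟩,
   let r : V5 Nat := ⟨0, 2000, 2000, 2000, 2000⟩; ⟨r, r, r, r, r⟩⟩

end Pool.Agent.Helper402.Theta
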