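import Pool.Agent.Helper402.ThetaRed

set_option autoImplicit false

namespace Pool.Agent.Helper402.Theta

open Finset

/-- evaluation of an affine functional at a point of the cube given in `[-1,1]` coordinates -/
theorem affine_eval (g : (Fin 4 → ℝ) →ᵃ[ℝ] ℝ) (X : Fin 4 → ℝ) :
    g (fun i => (X i + 1) / 2) =
      g (fun _ => 1 / 2) + ∑ i, g.linear (Pi.single i 1) * (X i / 2) := by
  have h1 : (fun i => (X i + 1) / 2 : Fin 4 → ℝ) =
      (fun i => X i / 2) +ᵥ (fun _ => 1 / 2 : Fin 4 → ℝ) := by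
    funext i; simp only [vadd_eq_add, Pi.add_apply]; ring
  rw [h1, AffineMap.map_vadd]
  have h2 : (fun i => X i / 2 : Fin 4 → ℝ) = ∑ i, (X i / 2) • (Pi.single i 1 : Fin 4 → ℝ) := by
    funext j
    simp [Finset.sum_apply, Pi.single_apply]
  rw [h2, map_sum]
  simp only [map_smul, smul_eq_mul, vadd_eq_add]
  rw [add_comm]
  congr 1
  exact Finset.sum_congr rfl fun i _ => mul_comm _ _

/-- every nondegenerate simplex in the cube has a cube vertex where the sum of the absolute values
of the barycentric coordinates exceeds `2.246` -/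
theorem exists_vertex (b : AffineBasis (Fin 5) ℝ (Fin 4 → ℝ))
    (hb : ∀ j, b j ∈ Set.Icc (0 : Fin 4 → ℝ) 1) :
    ∃ x ∈ Set.Icc (0 : Fin 4 → ℝ) 1, 2.246 < ∑ a, |b.coord a x| := by
  by_contra hcon
  push Not at hcon
  set y : Fin 5 → Fin 5 → ℝ := fun a =>
    Fin.cons (1000 * b.coord a (fun _ => 1 / 2)) fun i => 500 * (b.coord a).linear (Pi.single i 1)
    with hy
  set u : Fin 5 → Fin 5 → ℝ := fun c => Fin.cons 1000 fun k => 1000 * (2 * b c k - 1) with hu
  have key : ∀ (a : Fin 5) (X : Fin 5 → ℝ), X 0 = 1 →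
      ∑ i, y a i * X i = 1000 * b.coord a (fun i => (X i.succ + 1) / 2) := by
    intro a X h0
    rw [Fin.sum_univ_succ, affine_eval (b.coord a) (fun i => X i.succ)]
    simp only [hy, Fin.cons_zero, Fin.cons_succ, h0, mul_one, mul_add, Finset.mul_sum]
    congr 1
    exact Finset.sum_congr rfl fun i _ => by ring
  have hyu : ∀ a c, ∑ i, y a i * u c i = if a = c then 1000000 else 0 := by
    intro a c
    have e1 : ∑ i, y a i * u c i = 1000 * ∑ i, y a i * (Fin.cons 1 (fun k => 2 * b c k - 1) :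
        Fin 5 → ℝ) i := by
      rw [Finset.mul_sum]
      refine Finset.sum_congr rfl fun i _ => ?_
      refine Fin.cases ?_ (fun j => ?_) i
      · simp only [hu, Fin.cons_zero]; ring
      · simp only [hu, Fin.cons_succ]; ring
    rw [e1, key a _ (by simp)]
    have e2 : (fun i : Fin 4 => ((Fin.cons 1 (fun k => 2 * b c k - 1) : Fin 5 → ℝ) i.succ + 1) / 2)
        = b c := by
      funext i; simp only [Fin.cons_succ]; ring
    rw [e2, AffineBasis.coord_apply]
    split_ifs <;> norm_num
  have huy : ∀ i k, ∑ a, y a i * u a k = if i = k then 1000000 else 0 := by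
    set My : Matrix (Fin 5) (Fin 5) ℝ := Matrix.of fun a i => y a i / 1000000 with hMy
    set Mu : Matrix (Fin 5) (Fin 5) ℝ := Matrix.of fun i c => u c i with hMu
    have h1 : My * Mu = 1 := by
      ext a c
      rw [Matrix.mul_apply, Matrix.one_apply]
      have : ∑ j, My a j * Mu j c = (∑ i, y a i * u c i) / 1000000 := by
        rw [Finset.sum_div]
        refine Finset.sum_congr rfl fun i _ => ?_
        simp only [hMy, hMu, Matrix.of_apply]; ring
      rw [this, hyu]
      split_ifs <;> norm_num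
    have h2 : Mu * My = 1 := mul_eq_one_comm.mp h1
    intro i k
    have h3 := congrFun (congrFun h2 k) i
    rw [Matrix.mul_apply, Matrix.one_apply] at h3
    have h4 : ∑ j, Mu k j * My j i = (∑ a, y a i * u a k) / 1000000 := by
      rw [Finset.sum_div]
      refine Finset.sum_congr rfl fun a _ => ?_
      simp only [hMy, hMu, Matrix.of_apply]; ring
    rw [h4] at h3
    by_cases hik : i = k
    · rw [if_pos hik]
      rw [if_pos hik.symm] at h3
      linarith
    · rw [if_neg hik]
      rw [if_neg (fun h => hik h.symm)] at h3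
      linarith
  refine no_sys (y := y) (u := u) ⟨fun c => rfl, fun c k => ?_, ⟨hyu, huy, ?_⟩⟩
  · refine Fin.cases ?_ (fun j => ?_) k
    · simp [hu]
    · simp only [hu, Fin.cons_succ]
      have h0 := (hb c).1 j
      have h1 := (hb c).2 j
      simp only [Pi.zero_apply, Pi.one_apply] at h0 h1
      rw [abs_le]
      constructor <;> linarith
  · intro X h0 hX
    have hp : (fun i : Fin 4 => (X i.succ + 1) / 2) ∈ Set.Icc (0 : Fin 4 → ℝ) 1 := by
      constructor <;> intro i <;> rcases hX i.succ with h | h <;>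
        simp only [Pi.zero_apply, Pi.one_apply, h] <;> norm_num
    have hs := hcon _ hp
    have h1 := b.sum_coord_apply_eq_one (fun i : Fin 4 => (X i.succ + 1) / 2)
    have e : ∀ a, max 0 (-∑ i, y a i * X i) =
        500 * (|b.coord a (fun i : Fin 4 => (X i.succ + 1) / 2)| -
          b.coord a (fun i : Fin 4 => (X i.succ + 1) / 2)) := by
      intro a
      rw [key a X h0]
      rcases le_total 0 (b.coord a (fun i : Fin 4 => (X i.succ + 1) / 2)) with h | h
      · rw [abs_of_nonneg h, max_eq_left (by linarith)]; ring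
      · rw [abs_of_nonpos h, max_eq_right (by linarith)]; ring
    rw [Finset.sum_congr rfl fun a _ => e a, ← Finset.mul_sum, Finset.sum_sub_distrib, h1]
    norm_num at hs ⊢
    linarith

/-- the projector norm as in the frozen statement -/
def normSet (v : Fin 5 → (Fin 4 → ℝ)) : Set ℝ :=
  {t : ℝ | ∃ f : (Fin 4 → ℝ) → ℝ, ContinuousOn f (Set.Icc (0 : Fin 4 → ℝ) 1) ∧
    (∀ y ∈ Set.Icc (0 : Fin 4 → ℝ) 1, |f y| ≤ 1) ∧
    ∃ x ∈ Set.Icc (0 : Fin 4 → ℝ) 1, ∃ l : Fin 5 → ℝ,
      ∑ j, l j = 1 ∧ ∑ j, l j • v j = x ∧ t = |∑ j, f (v j) * l j|}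

theorem norm_lower (v : Fin 5 → (Fin 4 → ℝ)) (hv : AffineIndependent ℝ v)
    (hc : ∀ j, v j ∈ Set.Icc (0 : Fin 4 → ℝ) 1) : 2.246 ≤ sSup (normSet v) := by
  have htop : affineSpan ℝ (Set.range v) = ⊤ := by
    rw [hv.affineSpan_eq_top_iff_card_eq_finrank_add_one]
    simp
  set b : AffineBasis (Fin 5) ℝ (Fin 4 → ℝ) := ⟨v, hv, htop⟩ with hb
  have hbv : ∀ j, b j = v j := fun j => rfl
  obtain ⟨x, hx, hlt⟩ := exists_vertex b hc
  have hcont : ∀ a, Continuous (b.coord a) := fun a =>
    (b.coord a).continuous_of_finiteDimensional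
  refine hlt.le.trans (le_csSup ?_ ?_)
  · -- bounded above
    have hcs : Continuous fun x => ∑ a, |b.coord a x| :=
      continuous_finsetSum _ fun a _ => (hcont a).abs
    obtain ⟨M, hM⟩ := (isCompact_Icc (a := (0 : Fin 4 → ℝ)) (b := 1)).bddAbove_image
      hcs.continuousOn
    refine ⟨M, ?_⟩
    rintro t ⟨f, -, hf1, z, hz, l, hl1, hlz, rfl⟩
    have hl : ∀ j, l j = b.coord j z := by
      intro j
      have h := b.coord_apply_combination_of_mem (s := Finset.univ) (Finset.mem_univ j) hl1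
      rw [Finset.affineCombination_eq_linear_combination _ _ _ hl1] at h
      have : ∑ i, l i • b i = z := hlz
      rw [this] at h
      exact h.symm
    calc |∑ j, f (v j) * l j| ≤ ∑ j, |f (v j) * l j| := Finset.abs_sum_le_sum_abs _ _
      _ ≤ ∑ j, |b.coord j z| := by
          refine Finset.sum_le_sum fun j _ => ?_
          rw [abs_mul, hl j]
          calc |f (v j)| * |b.coord j z| ≤ 1 * |b.coord j z| :=
                mul_le_mul_of_nonneg_right (hf1 _ (hc j)) (abs_nonneg _)
            _ = _ := one_mul _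
      _ ≤ M := hM (Set.mem_image_of_mem _ hz)
  · -- membership
    set s : Fin 5 → ℝ := fun a => if 0 ≤ b.coord a x then 1 else -1 with hs
    have hs1 : ∀ a, s a = 1 ∨ s a = -1 := fun a => by
      simp only [hs]; split_ifs <;> simp
    refine ⟨fun z => max (-1) (min 1 (∑ a, s a * b.coord a z)), ?_, ?_, x, hx,
      fun j => b.coord j x, b.sum_coord_apply_eq_one x, b.linear_combination_coord_eq_self x, ?_⟩
    · refine (Continuous.max continuous_const (Continuous.min continuous_const ?_)).continuousOn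
      exact continuous_finsetSum _ fun a _ => continuous_const.mul (hcont a)
    · intro z _
      rw [abs_le]
      exact ⟨le_max_left _ _, max_le (by norm_num) (min_le_left _ _)⟩
    · have hval : ∀ j, max (-1) (min 1 (∑ a, s a * b.coord a (v j))) = s j := by
        intro j
        have : ∑ a, s a * b.coord a (v j) = s j := by
          rw [← hbv j]
          simp [AffineBasis.coord_apply]
        rw [this]
        rcases hs1 j with h | h <;> rw [h] <;> norm_num
      have e : ∑ j, max (-1) (min 1 (∑ a, s a * b.coord a (v j))) * b.coord j x =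
          ∑ j, |b.coord j x| := by
        refine Finset.sum_congr rfl fun j _ => ?_
        rw [hval]
        simp only [hs]
        split_ifs with h
        · rw [abs_of_nonneg h, one_mul]
        · rw [abs_of_neg (not_le.mp h)]; ring
      rw [e, abs_of_nonneg (Finset.sum_nonneg fun j _ => abs_nonneg _)]

/-! ### a simplex with absorption index below `4.115` -/

noncomputable def S0 : Fin 5 → (Fin 4 → ℝ) :=
  ![![1, 1, 33 / 43, 0], ![1, 0, 33 / 43, 1], ![0, 1 / 2, 1, 1 / 2], ![10 / 43, 0, 0, 0],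
    ![10 / 43, 1, 0, 1]]

theorem S0_indep : AffineIndependent ℝ S0 := by
  rw [affineIndependent_iff_of_fintype]
  intro w hw h
  rw [Finset.weightedVSub_eq_linear_combination _ hw] at h
  have h0 := congrFun h 0
  have h1 := congrFun h 1
  have h2 := congrFun h 2
  have h3 := congrFun h 3
  simp [Fin.sum_univ_five, S0] at h0 h1 h2 h3 hw
  have w2 : w 2 = 0 := by linarith
  have w3 : w 3 = 0 := by linarith
  have w4 : w 4 = 0 := by linarith
  have w0 : w 0 = 0 := by linarith
  have w1 : w 1 = 0 := by linarith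
  intro i
  fin_cases i <;> assumption

theorem S0_mem (j : Fin 5) : S0 j ∈ Set.Icc (0 : Fin 4 → ℝ) 1 := by
  constructor <;> intro i <;> fin_cases j <;> fin_cases i <;> simp [S0] <;> norm_num

/-- barycentric coordinates of `S0` -/
noncomputable def lam (x : Fin 4 → ℝ) : Fin 5 → ℝ :=
  ![-215 / 1749 + 1849 / 3498 * x 0 + 1 / 2 * x 1 + 215 / 1749 * x 2 - 1 / 2 * x 3,
    -215 / 1749 + 1849 / 3498 * x 0 - 1 / 2 * x 1 + 215 / 1749 * x 2 + 1 / 2 * x 3,
    10 / 53 - 43 / 53 * x 0 + 43 / 53 * x 2,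
    1799 / 1749 - 215 / 1749 * x 0 - 1 / 2 * x 1 - 1849 / 3498 * x 2 - 1 / 2 * x 3,
    50 / 1749 - 215 / 1749 * x 0 + 1 / 2 * x 1 - 1849 / 3498 * x 2 + 1 / 2 * x 3]

theorem lam_sum (x : Fin 4 → ℝ) : ∑ j, lam x j = 1 := by
  simp [Fin.sum_univ_five, lam]; ring

theorem lam_comb (x : Fin 4 → ℝ) : ∑ j, lam x j • S0 j = x := by
  funext i
  fin_cases i <;> simp [Fin.sum_univ_five, lam, S0] <;> ring

theorem lam_ge (x : Fin 4 → ℝ) (hx : x ∈ Set.Icc (0 : Fin 4 → ℝ) 1) (j : Fin 5) :
    -(2179 / 3498 : ℝ) ≤ lam x j := by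
  have a0 := hx.1 0
  have a1 := hx.1 1
  have a2 := hx.1 2
  have a3 := hx.1 3
  have b0 := hx.2 0
  have b1 := hx.2 1
  have b2 := hx.2 2
  have b3 := hx.2 3
  simp only [Pi.zero_apply, Pi.one_apply] at a0 a1 a2 a3 b0 b1 b2 b3
  fin_cases j <;> simp [lam] <;> linarith

theorem S0_absorb : Set.Icc (0 : Fin 4 → ℝ) 1 ⊆
    (AffineMap.homothety ((5 : ℝ)⁻¹ • ∑ j, S0 j) (14393 / 3498 : ℝ)) ''
      convexHull ℝ (Set.range S0) := by
  intro x hx
  set σ : ℝ := 14393 / 3498 with hσ
  have hσ0 : σ ≠ 0 := by norm_num [hσ]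
  set w : Fin 5 → ℝ := fun j => 1 / 5 + σ⁻¹ * (lam x j - 1 / 5) with hw
  have hw0 : ∀ j, 0 ≤ w j := by
    intro j
    have h1 := lam_ge x hx j
    have h2 : σ⁻¹ = 3498 / 14393 := by rw [hσ]; norm_num
    simp only [hw, h2]
    linarith
  have hws : ∑ j, w j = 1 := by
    simp only [hw, Finset.sum_add_distrib, ← Finset.mul_sum, Finset.sum_sub_distrib, lam_sum]
    simp
  refine ⟨∑ j, w j • S0 j, ?_, ?_⟩
  · rw [convexHull_range_eq_exists_affineCombination]
    refine ⟨Finset.univ, w, fun j _ => hw0 j, hws, ?_⟩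
    rw [Finset.affineCombination_eq_linear_combination _ _ _ hws]
  · rw [AffineMap.homothety_apply]
    have e : ∑ j, w j • S0 j = (5 : ℝ)⁻¹ • (∑ j, S0 j) +
        σ⁻¹ • (x - (5 : ℝ)⁻¹ • ∑ j, S0 j) := by
      have e1 : ∀ j, w j • S0 j = (5 : ℝ)⁻¹ • S0 j + σ⁻¹ • (lam x j • S0 j - (5 : ℝ)⁻¹ • S0 j) := by
        intro j
        simp only [hw]
        module
      rw [Finset.sum_congr rfl fun j _ => e1 j, Finset.sum_add_distrib, ← Finset.smul_sum,
        ← Finset.smul_sum, Finset.sum_sub_distrib, lam_comb, ← Finset.smul_sum]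
    rw [e]
    simp only [vsub_eq_sub, vadd_eq_add, add_sub_cancel_left]
    rw [smul_smul, mul_inv_cancel₀ hσ0, one_smul]
    abel

end Pool.Agent.Helper402.Theta
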